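import Pool.Agent.Run7.h500.RD.Stm2

/-!
# Project RD2 (helper500), piece CHART2, adapted by helper586 from the piece CHART of helper592
-/

set_option autoImplicit false
open MeasureTheory Filter Topology Set

namespace Pool.Agent.Run7.h586.RD2

open Pool.Agent.Run7.h500.RD

lemma sqrt_le_abs (x y : ℝ) : Real.sqrt (x ^ 2 + y ^ 2) ≤ |x| + |y| := by
  rw [Real.sqrt_le_left (by positivity)]
  have := mul_nonneg (abs_nonneg x) (abs_nonneg y)
  nlinarith [sq_abs x, sq_abs y]

lemma abs_le_sqrt' (x y : ℝ) : |x| ≤ Real.sqrt (x ^ 2 + y ^ 2) := by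
  apply Real.le_sqrt_of_sq_le
  rw [sq_abs]
  nlinarith [sq_nonneg y]

lemma abs_le_sqrt'' (x y : ℝ) : |y| ≤ Real.sqrt (x ^ 2 + y ^ 2) := by
  apply Real.le_sqrt_of_sq_le
  rw [sq_abs]
  nlinarith [sq_nonneg x]

/-- polynomials against `exp (s ^ ρ)` -/
lemma exp_bound (ρ : ℝ) (hρ : 0 < ρ) (K : ℕ) : ∃ M : ℝ, 0 < M ∧ ∀ s : ℝ, 0 ≤ s →
    Real.exp (-(s ^ ρ)) ≤ M / (1 + s) ^ K := by
  obtain ⟨N, hN⟩ := exists_nat_ge ((K : ℝ) / ρ)
  have hN' : (K : ℝ) ≤ ρ * N := by
    rw [div_le_iff₀ hρ] at hN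
    linarith
  refine ⟨2 ^ K * (1 + (N.factorial : ℝ)), by positivity, fun s hs => ?_⟩
  rw [le_div_iff₀ (by positivity), Real.exp_neg, inv_mul_le_iff₀ (Real.exp_pos _)]
  have hu : 0 ≤ s ^ ρ := Real.rpow_nonneg hs ρ
  have he : 1 ≤ Real.exp (s ^ ρ) := Real.one_le_exp hu
  have hf : (0 : ℝ) ≤ N.factorial := Nat.cast_nonneg _
  rcases le_or_gt s 1 with h1 | h1
  · calc (1 + s) ^ K ≤ 2 ^ K := pow_le_pow_left₀ (by linarith) (by linarith) K
      _ = 1 * (2 ^ K * 1) := by ring
      _ ≤ Real.exp (s ^ ρ) * (2 ^ K * (1 + (N.factorial : ℝ))) := by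
          gcongr
          linarith
  · have h2 : s ^ K ≤ (s ^ ρ) ^ N := by
      rw [← Real.rpow_natCast, ← Real.rpow_natCast, ← Real.rpow_mul hs]
      exact Real.rpow_le_rpow_of_exponent_le h1.le hN'
    have h3 : (s ^ ρ) ^ N ≤ N.factorial * Real.exp (s ^ ρ) := by
      have h4 := Real.pow_div_factorial_le_exp (s ^ ρ) hu N
      rw [div_le_iff₀ (by positivity)] at h4
      linarith
    calc (1 + s) ^ K ≤ (2 * s) ^ K := pow_le_pow_left₀ (by linarith) (by linarith) K
      _ = 2 ^ K * s ^ K := mul_pow _ _ _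
      _ ≤ 2 ^ K * (N.factorial * Real.exp (s ^ ρ)) := by
          gcongr
          exact h2.trans h3
      _ ≤ Real.exp (s ^ ρ) * (2 ^ K * (1 + (N.factorial : ℝ))) := by
          have h5 : 0 ≤ (2 : ℝ) ^ K * Real.exp (s ^ ρ) := by positivity
          nlinarith

theorem t_CHART2 : S_CHART2 := by
  intro hCONE f hf hgr hint hzero hdir
  obtain ⟨c, m, hc, hgr⟩ := hgr
  obtain ⟨ρ, hρ0, hρ1, hdir⟩ := hdir
  set K : ℕ := m + 3 with hK
  have hg : ∀ x y : ℝ, |f (x, y)| ≤ (2 * c) * (1 + |x| + |y|) ^ m := by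
    intro x y
    have h1 : (1 : ℝ) ≤ (1 + |x| + |y|) ^ m := one_le_pow₀ (by
      have := abs_nonneg x; have := abs_nonneg y; linarith)
    have h2 : Real.sqrt (x ^ 2 + y ^ 2) ^ m ≤ (1 + |x| + |y|) ^ m := by
      refine pow_le_pow_left₀ (Real.sqrt_nonneg _) ?_ m
      have := sqrt_le_abs x y
      linarith
    calc |f (x, y)| ≤ c * (1 + Real.sqrt (x ^ 2 + y ^ 2) ^ m) := hgr x y
      _ ≤ c * ((1 + |x| + |y|) ^ m + (1 + |x| + |y|) ^ m) := by gcongr
      _ = _ := by ring
  refine ⟨ρ, hρ0, hρ1, m, 2 * c, ⟨hf, hg, ?_, ?_, ?_⟩⟩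
  · -- the directions
    intro a
    set s : ℝ := Real.sqrt (1 + a ^ 2) with hs
    have hs1 : 1 ≤ s := by
      rw [hs]; exact Real.one_le_sqrt.2 (by nlinarith [sq_nonneg a])
    have hs0 : 0 < s := by linarith
    have hcos : Real.cos (-Real.arctan a) = 1 / s := by
      rw [Real.cos_neg, Real.cos_arctan]
    have hsin : Real.sin (-Real.arctan a) = -(a / s) := by
      rw [Real.sin_neg, Real.sin_arctan]
    have hlin : ∀ z : ℝ × ℝ, |z.1 * Real.cos (-Real.arctan a) + z.2 * Real.sin (-Real.arctan a)| =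
        |z.1 - a * z.2| / s := by
      intro z
      rw [hcos, hsin]
      have : z.1 * (1 / s) + z.2 * -(a / s) = (z.1 - a * z.2) / s := by
        field_simp
        ring
      rw [this, abs_div, abs_of_pos hs0]
    have hle : ∀ z : ℝ × ℝ, |z.1 - a * z.2| / s ≤ |z.1 - a * z.2| := fun z =>
      div_le_self (abs_nonneg _) hs1
    rcases hdir (-Real.arctan a) with h | ⟨δ, hδ, h⟩
    · left
      unfold WE
      simp only [hlin] at h
      have hcont : Continuous (fun z : ℝ × ℝ => f z * Real.exp (-(|z.1 - a * z.2| ^ ρ))) := by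
        refine hf.mul (Real.continuous_exp.comp ?_)
        refine Continuous.neg (Continuous.rpow_const (by fun_prop) fun z => Or.inr hρ0.le)
      refine h.mono hcont.aestronglyMeasurable (Eventually.of_forall (fun z => ?_))
      rw [norm_mul, norm_mul]
      refine mul_le_mul_of_nonneg_left ?_ (norm_nonneg _)
      rw [Real.norm_of_nonneg (Real.exp_pos _).le, Real.norm_of_nonneg (Real.exp_pos _).le]
      apply Real.exp_le_exp.2
      have p1 : (|z.1 - a * z.2| / s) ^ ρ ≤ |z.1 - a * z.2| ^ ρ :=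
        Real.rpow_le_rpow (div_nonneg (abs_nonneg _) hs0.le) (hle z) hρ0.le
      linarith
    · right
      suffices hLI : LI f K a by
        obtain ⟨δ', hδ', hI⟩ := hLI
        obtain ⟨M, hM0, hM⟩ := exp_bound ρ hρ0 K
        refine ⟨δ', hδ', ?_⟩
        have hcont : Continuous (fun t : ℝ × (ℝ × ℝ) =>
            f t.2 * Real.exp (-(|t.2.1 - t.1 * t.2.2| ^ ρ))) := by
          refine (hf.comp continuous_snd).mul (Real.continuous_exp.comp ?_)
          refine Continuous.neg (Continuous.rpow_const (by fun_prop) fun z => Or.inr hρ0.le)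
        refine Integrable.mono (Integrable.const_mul hI M) hcont.aestronglyMeasurable
          (Eventually.of_forall (fun t => ?_))
        have p0 : 0 ≤ |t.2.1 - t.1 * t.2.2| := abs_nonneg _
        have p1 := hM _ p0
        rw [norm_mul, norm_mul, norm_div, Real.norm_of_nonneg (Real.exp_pos _).le,
          Real.norm_of_nonneg hM0.le, Real.norm_of_nonneg (by positivity : (0 : ℝ) ≤ (1 + |t.2.1 - t.1 * t.2.2|) ^ K)]
        calc ‖f t.2‖ * Real.exp (-(|t.2.1 - t.1 * t.2.2| ^ ρ))
            ≤ ‖f t.2‖ * (M / (1 + |t.2.1 - t.1 * t.2.2|) ^ K) :=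
              mul_le_mul_of_nonneg_left p1 (norm_nonneg _)
          _ = M * (‖f t.2‖ / (1 + |t.2.1 - t.1 * t.2.2|) ^ K) := by ring
      refine hCONE f m K (2 * c) hf le_rfl hg a (δ / 3) (by positivity) ?_
      simp only [hlin] at h
      have hcont : Continuous (fun z : ℝ × ℝ => f z / (1 + |z.1| + |z.2|)) := by
        refine hf.div (by fun_prop) (fun z => ?_)
        have := abs_nonneg z.1
        have := abs_nonneg z.2
        positivity
      have h1 : IntegrableOn (fun z : ℝ × ℝ => f z / (1 + |z.1| + |z.2|))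
          {z | |z.1 - a * z.2| / s ≤ δ * Real.sqrt (z.1 ^ 2 + z.2 ^ 2)} := by
        refine Integrable.mono h hcont.aestronglyMeasurable (Eventually.of_forall (fun z => ?_))
        rw [norm_div, norm_div]
        have p1 : 1 + Real.sqrt (z.1 ^ 2 + z.2 ^ 2) ≤ 1 + |z.1| + |z.2| := by
          linarith [sqrt_le_abs z.1 z.2]
        have p2 : 0 < 1 + Real.sqrt (z.1 ^ 2 + z.2 ^ 2) := by positivity
        rw [Real.norm_of_nonneg (p2.le.trans p1), Real.norm_of_nonneg p2.le]
        exact div_le_div_of_nonneg_left (norm_nonneg _) p2 p1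
      have h2 : IntegrableOn (fun z : ℝ × ℝ => f z / (1 + |z.1| + |z.2|))
          (Metric.closedBall (0 : ℝ × ℝ) 1) :=
        hcont.continuousOn.integrableOn_compact (isCompact_closedBall _ _)
      refine (h1.union h2).mono_set ?_
      intro z hz
      simp only [mem_ofPred_eq] at hz
      rcases le_or_gt 1 (Real.sqrt (z.1 ^ 2 + z.2 ^ 2)) with hR | hR
      · left
        simp only [mem_ofPred_eq]
        have q1 := abs_le_sqrt' z.1 z.2
        have q2 := abs_le_sqrt'' z.1 z.2
        have q3 : δ / 3 * (1 + |z.1| + |z.2|) ≤ δ / 3 * (3 * Real.sqrt (z.1 ^ 2 + z.2 ^ 2)) := by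
          refine mul_le_mul_of_nonneg_left ?_ (by positivity)
          linarith
        calc |z.1 - a * z.2| / s ≤ |z.1 - a * z.2| := hle z
          _ ≤ δ / 3 * (3 * Real.sqrt (z.1 ^ 2 + z.2 ^ 2)) := hz.trans q3
          _ = _ := by ring
      · right
        rw [mem_closedBall_zero_iff, Prod.norm_def]
        exact max_le ((abs_le_sqrt' z.1 z.2).trans hR.le) ((abs_le_sqrt'' z.1 z.2).trans hR.le)
  · -- the integrals over the lines
    intro a b
    set s : ℝ := Real.sqrt (1 + a ^ 2) with hs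
    have hs0 : 0 < s := Real.sqrt_pos.2 (by positivity)
    have hs2 : s ^ 2 = 1 + a ^ 2 := Real.sq_sqrt (by positivity)
    have hcos : Real.cos (-Real.arctan a) = 1 / s := by
      rw [Real.cos_neg, Real.cos_arctan]
    have hsin : Real.sin (-Real.arctan a) = -(a / s) := by
      rw [Real.sin_neg, Real.sin_arctan]
    have h0 := hzero (-Real.arctan a) (b / s)
    rw [hcos, hsin] at h0
    set g : ℝ → ℝ := fun t => f (b / s * (1 / s) - t * -(a / s), b / s * -(a / s) + t * (1 / s))
      with hgdef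
    have e : (fun y : ℝ => f (b + a * y, y)) = fun y => (fun t => g (t + a * b / s)) (s * y) := by
      funext y
      simp only [hgdef]
      congr 1
      refine Prod.ext ?_ ?_
      · simp only
        have : b / s * (1 / s) - (s * y + a * b / s) * -(a / s) =
            a * y + b * (1 + a ^ 2) / s ^ 2 := by
          field_simp
          ring
        rw [this, hs2]
        field_simp
        ring
      · simp only
        field_simp
        ring
    have e2 := Measure.integral_comp_mul_left (fun t => g (t + a * b / s)) s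
    rw [integral_add_right_eq_self g (a * b / s)] at e2
    rw [e, e2, h0, smul_zero]
  · -- horizontal lines
    intro y
    have h1 := hint (Real.pi / 2) y
    simp only [Real.cos_pi_div_two, Real.sin_pi_div_two, mul_zero, mul_one, zero_sub,
      add_zero] at h1
    simpa using h1.comp_neg

end Pool.Agent.Run7.h586.RD2
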